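import Pool.Agent.P8H34.MB.Stm

/-!
# Project MB, package EX
-/

set_option autoImplicit false

open Pool.Agent.N110.CC Pool.Agent.N165.KM

namespace Pool.Agent.P8H16.MB

open Pool.Agent.P8H34.MB

/-- the linear form of a character -/
lemma exists_frm {r : ℕ} (χ : (Fin r → ℤ) → ℂ) (h0 : χ 0 = 1)
    (hadd : ∀ u v, χ (u + v) = χ u * χ v) : ∃ ℓ : Frm r, ∀ v, Real.exp (ev ℓ v) = ‖χ v‖ := by
  have hinv : ∀ v, χ v * χ (-v) = 1 := by
    intro v
    rw [← hadd, add_neg_cancel, h0]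
  have hne : ∀ v, χ v ≠ 0 := fun v => left_ne_zero_of_mul_eq_one (hinv v)
  obtain ⟨ℓ, hℓ⟩ : ∃ ℓ : Frm r, ℓ = ∑ i, Real.log ‖χ (Pi.single i 1)‖ • LinearMap.proj i :=
    ⟨_, rfl⟩
  have hev : ∀ i, ev ℓ (Pi.single i 1) = Real.log ‖χ (Pi.single i 1)‖ := by
    intro i
    unfold ev
    rw [hℓ, LinearMap.sum_apply, Finset.sum_eq_single i]
    · simp
    · intro j _ hj
      simp [hj]
    · intro hi
      exact absurd (Finset.mem_univ i) hi
  refine ⟨ℓ, ?_⟩
  let S : AddSubgroup (Fin r → ℤ) :=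
    { carrier := {w | Real.exp (ev ℓ w) = ‖χ w‖}
      add_mem' := by
        intro a b ha hb
        show Real.exp (ev ℓ (a + b)) = ‖χ (a + b)‖
        rw [hadd, norm_mul, ← show Real.exp (ev ℓ a) = ‖χ a‖ from ha,
          ← show Real.exp (ev ℓ b) = ‖χ b‖ from hb, ev_add, Real.exp_add]
      zero_mem' := by
        show Real.exp (ev ℓ 0) = ‖χ 0‖
        rw [h0, ev_zero, Real.exp_zero, norm_one]
      neg_mem' := by
        intro a ha
        show Real.exp (ev ℓ (-a)) = ‖χ (-a)‖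
        have h1 : ‖χ a‖ * ‖χ (-a)‖ = 1 := by rw [← norm_mul, hinv, norm_one]
        rw [ev_neg, Real.exp_neg, show Real.exp (ev ℓ a) = ‖χ a‖ from ha]
        exact (eq_inv_of_mul_eq_one_right h1).symm }
  intro w
  have hw : w = ∑ i, w i • (Pi.single i 1 : Fin r → ℤ) := by
    funext j
    rw [Finset.sum_apply, Finset.sum_eq_single j]
    · simp
    · intro i _ hi
      simp [Ne.symm hi]
    · intro hi
      exact absurd (Finset.mem_univ j) hi
  have h1 : w ∈ S := by
    rw [hw]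
    refine S.sum_mem fun i _ => S.zsmul_mem ?_ _
    show Real.exp (ev ℓ (Pi.single i 1)) = ‖χ (Pi.single i 1)‖
    rw [hev, Real.exp_log (norm_pos_iff.2 (hne _))]
  exact h1

/-- a form is zero if its values at the integral vectors are -/
lemma frm_eq_zero {r : ℕ} (ℓ : Frm r) (h : ∀ v, ev ℓ v = 0) : ℓ = 0 := by
  refine (Pi.basisFun ℝ (Fin r)).ext fun k => ?_
  have h1 := h (Pi.single k 1)
  unfold ev at h1
  rw [LinearMap.zero_apply, Pi.basisFun_apply, ← h1]
  congr 1
  funext i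
  rcases eq_or_ne i k with rfl | hik
  · simp
  · simp [hik]

/-- the determinant is the product of the roots -/
lemma det_eq_prod {n : ℕ} (A : Matrix (Fin n) (Fin n) ℂ) (a : Fin n → ℂ)
    (h : A.charpoly = ∏ j, (Polynomial.X - Polynomial.C (a j))) : A.det = ∏ j, a j := by
  rw [Matrix.det_eq_sign_charpoly_coeff, h, Polynomial.coeff_zero_eq_eval_zero,
    Polynomial.eval_prod]
  simp only [Polynomial.eval_sub, Polynomial.eval_X, Polynomial.eval_C, zero_sub,
    Fintype.card_fin]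
  rw [Finset.prod_neg, Finset.card_univ, Fintype.card_fin, ← mul_assoc, ← pow_add, ← two_mul,
    pow_mul, neg_one_sq, one_pow, one_mul]

section

variable {b ρ : ℕ} {d : Fin b → ℕ} (s : ∀ i, Fin (d i) → Fin ρ → ℤ)

/-- the vector with the coordinates `t` -/
noncomputable def asm (t : Ix d → ℝ) : Fin ρ → ℝ := ∑ i, comb (s i) fun j => t ⟨i, j⟩

lemma asm_eq (t : Ix d → ℝ) : asm s t = ∑ p : Ix d, t p • fun k => (s p.1 p.2 k : ℝ) := by
  rw [Fintype.sum_sigma]
  rfl

lemma comb_sub {k : ℕ} (s : Fin k → Fin ρ → ℤ) (a b : Fin k → ℝ) :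
    comb s (a - b) = comb s a - comb s b := by
  unfold comb
  rw [← Finset.sum_sub_distrib]
  exact Finset.sum_congr rfl fun j _ => by rw [Pi.sub_apply, sub_smul]

lemma comb_smul {k : ℕ} (s : Fin k → Fin ρ → ℤ) (c : ℝ) (a : Fin k → ℝ) :
    comb s (c • a) = c • comb s a := by
  unfold comb
  rw [Finset.smul_sum]
  exact Finset.sum_congr rfl fun j _ => by rw [Pi.smul_apply, smul_eq_mul, mul_smul]

lemma comb_sum {k : ℕ} {ι : Type*} (S : Finset ι) (s : Fin k → Fin ρ → ℤ) (a : ι → Fin k → ℝ) :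
    comb s (∑ i ∈ S, a i) = ∑ i ∈ S, comb s (a i) := by
  unfold comb
  rw [Finset.sum_comm]
  exact Finset.sum_congr rfl fun j _ => by rw [Finset.sum_apply, Finset.sum_smul]

variable {s} (hli : LinearIndependent ℝ (fun p : Ix d => fun k => (s p.1 p.2 k : ℝ)))

include hli in
lemma comb_inj (i : Fin b) (x y : Fin (d i) → ℝ) (h : comb (s i) x = comb (s i) y) : x = y := by
  have h1 := hli.comp (Sigma.mk i) sigma_mk_injective
  rw [Fintype.linearIndependent_iff] at h1
  have h2 : comb (s i) (x - y) = 0 := by rw [comb_sub, h, sub_self]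
  funext j
  have := h1 (x - y) h2 j
  rw [Pi.sub_apply] at this
  linarith

include hli in
lemma asm_inj (x y : Ix d → ℝ) (h : asm s x = asm s y) : x = y := by
  rw [Fintype.linearIndependent_iff] at hli
  rw [asm_eq, asm_eq, ← sub_eq_zero, ← Finset.sum_sub_distrib] at h
  funext p
  have h1 := hli (x - y) (by
    rw [← h]
    exact Finset.sum_congr rfl fun j _ => by rw [Pi.sub_apply, sub_smul]) p
  rw [Pi.sub_apply] at h1
  linarith

include hli in
lemma asm_surj (hcard : ∑ i, d i = ρ) (x : Fin ρ → ℝ) : ∃ t, x = asm s t := by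
  have hc : Fintype.card (Ix d) = Module.finrank ℝ (Fin ρ → ℝ) := by
    rw [Fintype.card_sigma, Module.finrank_fin_fun]
    simpa using hcard
  have h1 := hli.span_eq_top_of_card_eq_finrank' hc
  have h2 : x ∈ Submodule.span ℝ (Set.range fun p : Ix d => fun k => (s p.1 p.2 k : ℝ)) := by
    rw [h1]
    exact Submodule.mem_top
  rw [Submodule.mem_span_range_iff_exists_fun] at h2
  obtain ⟨t, ht⟩ := h2
  exact ⟨t, by rw [asm_eq, ht]⟩

end

theorem ex : S_EX := by
  intro hTRI hEIG hWGT hPF hCE hNUM r b ρ d hd hcard hrb hρ C hPC hint G hG0 hGadd hGint hGC c δ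
    hc hδ hgr s hli hlat
  classical
  choose a ha using hlat
  -- the matrices
  obtain ⟨M, hM⟩ : ∃ M : ∀ i, (Fin r → ℤ) → Matrix (Fin (d i)) (Fin (d i)) ℤ,
      ∀ i v m j, M i v m j = a v i j m := ⟨fun i v => Matrix.of fun m j => a v i j m,
    fun _ _ _ _ => rfl⟩
  obtain ⟨R, hR⟩ : ∃ R : ∀ i, (Fin r → ℤ) → Matrix (Fin (d i)) (Fin (d i)) ℝ,
      ∀ i v, R i v = (Int.castRingHom ℝ).mapMatrix (M i v) := ⟨_, fun _ _ => rfl⟩
  have hRG : ∀ i v (t : Fin (d i) → ℝ), G v (comb (s i) t) = comb (s i) ((R i v).mulVec t) := by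
    intro i v t
    have h1 : G v (comb (s i) t) = ∑ j, t j • comb (s i) (fun m => (a v i j m : ℝ)) := by
      unfold comb
      rw [map_sum]
      refine Finset.sum_congr rfl fun j _ => ?_
      rw [map_smul, ha v i j]
      rfl
    rw [h1, ← Finset.sum_congr rfl fun j _ => comb_smul (s i) (t j) _, ← comb_sum]
    congr 1
    funext m
    rw [Finset.sum_apply, Matrix.mulVec, dotProduct]
    refine Finset.sum_congr rfl fun j _ => ?_
    rw [hR, Pi.smul_apply, smul_eq_mul, RingHom.mapMatrix_apply, Matrix.map_apply, hM, mul_comm]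
    rfl
  have hR0 : ∀ i, R i 0 = 1 := by
    intro i
    refine Matrix.ext_of_mulVec_single fun j => ?_
    refine comb_inj hli i _ _ ?_
    rw [← hRG, hG0, Matrix.one_mulVec]
    rfl
  have hRadd : ∀ i u v, R i (u + v) = R i u * R i v := by
    intro i u v
    refine Matrix.ext_of_mulVec_single fun j => ?_
    refine comb_inj hli i _ _ ?_
    rw [← hRG, hGadd, ← Matrix.mulVec_mulVec, ← hRG, ← hRG]
    rfl
  have hdet : ∀ i v, |(R i v).det| = 1 := by
    intro i v
    have h1 : (R i v).det * (R i (-v)).det = 1 := by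
      rw [← Matrix.det_mul, ← hRadd, add_neg_cancel, hR0, Matrix.det_one]
    rw [hR, hR, ← RingHom.map_det, ← RingHom.map_det, ← map_mul] at h1
    have h2 : (M i v).det * (M i (-v)).det = 1 := by
      rw [eq_intCast] at h1
      exact_mod_cast h1
    have h3 : |(M i v).det| = 1 := by
      have := Int.isUnit_iff_abs_eq.1 (IsUnit.of_mul_eq_one _ h2)
      exact this
    rw [hR, ← RingHom.map_det, eq_intCast, ← Int.cast_abs, h3, Int.cast_one]
  -- the characters
  obtain ⟨A, hA⟩ : ∃ A : ∀ i, (Fin r → ℤ) → Matrix (Fin (d i)) (Fin (d i)) ℂ,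
      ∀ i v, A i v = (R i v).map (algebraMap ℝ ℂ) := ⟨_, fun _ _ => rfl⟩
  have hA0 : ∀ i, A i 0 = 1 := by
    intro i
    rw [hA, hR0, Matrix.map_one _ (map_zero _) (map_one _)]
  have hAadd : ∀ i u v, A i (u + v) = A i u * A i v := by
    intro i u v
    rw [hA, hA, hA, hRadd, Matrix.map_mul]
  have hχ := fun i => hTRI r (d i) (A i) (hA0 i) (hAadd i)
  choose χ hχ1 hχ2 hχ3 using hχ
  have hℓ := fun p : Ix d => exists_frm (χ p.1 p.2) (hχ1 p.1 p.2).1 (hχ1 p.1 p.2).2
  choose ℓ hℓ using hℓ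
  have hsum : ∀ i, ∑ j, ℓ ⟨i, j⟩ = 0 := by
    intro i
    refine frm_eq_zero _ fun v => ?_
    have h1 : ev (∑ j, ℓ ⟨i, j⟩) v = ∑ j, ev (ℓ ⟨i, j⟩) v := by
      unfold ev
      rw [LinearMap.sum_apply]
    have h2 : Real.exp (∑ j, ev (ℓ ⟨i, j⟩) v) = 1 := by
      rw [Real.exp_sum, Finset.prod_congr rfl fun j _ => hℓ ⟨i, j⟩ v, ← norm_prod,
        ← det_eq_prod _ _ (hχ2 i v), hA]
      have h3 : ((R i v).map (algebraMap ℝ ℂ)).det = algebraMap ℝ ℂ (R i v).det := by
        rw [RingHom.map_det]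
        rfl
      rw [h3, norm_algebraMap', Real.norm_eq_abs, hdet]
    rw [h1]
    exact Real.exp_eq_one_iff _ |>.1 h2
  -- the growth
  have hmax : ∀ v : Fin r → ℤ, ∃ p, δ * ∑ i, |(v i : ℝ)| ≤ ev (ℓ p) v := by
    intro v
    obtain ⟨ℓ', x, hxC, hx0, hxe, hxv⟩ := hWGT hPF hCE r ρ hρ C hPC hint G hG0 hGadd hGC c δ hc hδ
      hgr v
    obtain ⟨t, rfl⟩ := asm_surj hli hcard x
    have h1 : ∃ p, t p ≠ 0 := by
      by_contra hcon
      push Not at hcon
      apply hx0
      have : t = 0 := funext hcon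
      rw [asm_eq, this]
      simp
    obtain ⟨⟨i, j₀⟩, hp⟩ := h1
    have h2 : ∀ w, (R i w).mulVec (fun j => t ⟨i, j⟩) = Real.exp (ev ℓ' w) • fun j => t ⟨i, j⟩ := by
      intro w
      have h3 := hxe w
      have h4 : G w (asm s t) = asm s fun q => (R q.1 w).mulVec (fun j => t ⟨q.1, j⟩) q.2 := by
        unfold asm
        rw [map_sum]
        exact Finset.sum_congr rfl fun i _ => hRG i w _
      have h5 : Real.exp (ev ℓ' w) • asm s t = asm s (Real.exp (ev ℓ' w) • t) := by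
        unfold asm
        rw [Finset.smul_sum]
        exact Finset.sum_congr rfl fun i _ => (comb_smul _ _ _).symm
      rw [h4, h5] at h3
      have h6 := asm_inj hli _ _ h3
      funext j
      exact congrFun h6 ⟨i, j⟩
    obtain ⟨j, hj⟩ := hχ3 i (fun w => (Real.exp (ev ℓ' w) : ℂ)) (fun j => (t ⟨i, j⟩ : ℂ))
      (fun h => hp (by
        have h0 : ((t ⟨i, j₀⟩ : ℝ) : ℂ) = 0 := congrFun h j₀
        exact_mod_cast h0)) (fun w => by
        funext m
        have h3 := congrFun (h2 w) m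
        rw [hA]
        simp only [Matrix.mulVec, dotProduct, Matrix.map_apply, Pi.smul_apply, smul_eq_mul] at h3 ⊢
        rw [← Complex.ofReal_mul, ← h3]
        push_cast
        rfl)
    refine ⟨⟨i, j⟩, ?_⟩
    have h3 : Real.exp (ev (ℓ ⟨i, j⟩) v) = Real.exp (ev ℓ' v) := by
      rw [hℓ ⟨i, j⟩ v]
      show ‖χ i j v‖ = _
      rw [← hj, Complex.norm_real, Real.norm_eq_abs, abs_of_pos (Real.exp_pos _)]
    rw [Real.exp_eq_exp.1 h3]
    exact hxv
  obtain ⟨hblk, v₀, hv₀⟩ := hNUM r b d hd (hrb.trans hcard.symm) ℓ hsum δ hδ hmax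
  have hε := fun i => hEIG r (d i) (R i) (hR0 i) (hRadd i) (χ i) (fun v => by
      rw [← hA]; exact hχ2 i v) (fun μ u hu h => hχ3 i μ u hu fun v => by
      rw [hA]; exact h v) ⟨v₀, fun j k hjk => by
      rw [← hℓ ⟨i, j⟩ v₀, ← hℓ ⟨i, k⟩ v₀]
      intro h
      refine hv₀ ⟨i, j⟩ ⟨i, k⟩ (fun h1 => hjk ?_) (Real.exp_eq_exp.1 h)
      simpa using h1⟩
  choose ε hεli hεe using hε
  obtain ⟨w, hw⟩ : ∃ w : Ix d → Fin ρ → ℝ, ∀ p, w p = comb (s p.1) (ε p.1 p.2) := ⟨_, fun _ => rfl⟩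
  have hwli : LinearIndependent ℝ w := by
    rw [Fintype.linearIndependent_iff]
    intro g hg p
    have h1 : ∑ p, g p • w p = asm s fun q => (∑ j, g ⟨q.1, j⟩ • ε q.1 j) q.2 := by
      unfold asm
      rw [Fintype.sum_sigma]
      refine Finset.sum_congr rfl fun i _ => ?_
      have h2 : (fun j => (∑ j', g ⟨i, j'⟩ • ε i j') j) = ∑ j', g ⟨i, j'⟩ • ε i j' := rfl
      show _ = comb (s i) (fun j => (∑ j', g ⟨i, j'⟩ • ε i j') j)
      rw [h2, comb_sum]
      exact Finset.sum_congr rfl fun j _ => by rw [hw, comb_smul]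
    have h2 : (0 : Fin ρ → ℝ) = asm s (0 : Ix d → ℝ) := by
      rw [asm_eq]
      simp
    rw [h1, h2] at hg
    have h3 := asm_inj hli _ _ hg
    have h4 := Fintype.linearIndependent_iff.1 (hεli p.1) (fun j => g ⟨p.1, j⟩) (by
      funext m
      exact congrFun h3 ⟨p.1, m⟩) p.2
    exact h4
  have hcd : Fintype.card (Ix d) = Module.finrank ℝ (Fin ρ → ℝ) := by
    rw [Fintype.card_sigma, Module.finrank_fin_fun]
    simpa using hcard
  have hne : Nonempty (Ix d) := by
    rw [← Fintype.card_pos_iff, hcd, Module.finrank_fin_fun]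
    exact hρ
  refine ⟨fun p => (2 : ℝ) • ℓ p, basisOfLinearIndependentOfCardEqFinrank hwli hcd, ?_⟩
  have hev2 : ∀ p v, ev ((2 : ℝ) • ℓ p) v = 2 * ev (ℓ p) v := fun _ _ => rfl
  refine
    { blk := ⟨fun p => ?_, ?_⟩
      two := hd
      card := hcard
      li := hli
      zero := by
        show G (0 + 0) = 1
        rw [add_zero, hG0]
      add := fun u v => by
        show G (u + v + (u + v)) = G (u + u) * G (v + v)
        rw [← hGadd, add_add_add_comm]
      int := fun v => hGint (v + v)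
      lat := fun v i j => ⟨a (v + v) i j, ha (v + v) i j⟩
      mem := fun p => ⟨ε p.1 p.2, by
        rw [coe_basisOfLinearIndependentOfCardEqFinrank, hw]⟩
      eig := fun v p => ?_ }
  · obtain ⟨v, h1, h2, h3⟩ := hblk.dir p
    refine ⟨v, by rw [hev2]; linarith, fun q hq => ?_, fun q hq hq1 => ?_⟩
    · rw [hev2, hev2]
      linarith [h2 q hq]
    · rw [hev2]
      linarith [h3 q hq hq1]
  · obtain ⟨B, hB⟩ := hblk.bal
    refine ⟨2 * B, fun a' => ?_⟩
    obtain ⟨v, hv⟩ := hB fun p => a' p / 2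
    refine ⟨v, fun p q hpq => ?_⟩
    rw [hev2, hev2]
    linarith [hv p q hpq]
  · rw [coe_basisOfLinearIndependentOfCardEqFinrank]
    obtain ⟨t, ht, hte⟩ := hεe p.1 p.2 v
    have h1 : G v (w p) = t • w p := by
      rw [hw, hRG, hte, comb_smul]
    show G (v + v) (w p) = _
    have h2 : G (v + v) (w p) = G v (G v (w p)) := by rw [hGadd]; rfl
    rw [h2, h1, map_smul, h1, smul_smul, hev2, two_mul, Real.exp_add, hℓ p v]
    congr 1
    show t * t = ‖χ p.1 p.2 v‖ * ‖χ p.1 p.2 v‖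
    rw [← ht, abs_mul_abs_self]

end Pool.Agent.P8H16.MB
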