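import Pool.Agent.P8H34.MB.Stm
import Pool.Agent.N395.CC.SEP

/-!
# Project MB, package NUM
-/

set_option autoImplicit false

open Pool.Agent.N110.CC

namespace Pool.Agent.P8H16.MB

open Pool.Agent.P8H34.MB

lemma frm_sum {r : ℕ} (ℓ : Frm r) (x : Fin r → ℝ) :
    ℓ x = ∑ k, x k * ℓ (Pi.single k 1) := by
  have h : x = ∑ k, x k • (Pi.single k (1 : ℝ) : Fin r → ℝ) := by
    ext i
    simp [Finset.sum_apply, Pi.single_apply]
  conv_lhs => rw [h]
  rw [map_sum]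
  exact Finset.sum_congr rfl fun k _ => by rw [map_smul, smul_eq_mul]

lemma frm_le {r : ℕ} (ℓ : Frm r) (x : Fin r → ℝ) (hx : ∀ k, |x k| ≤ 1) :
    |ℓ x| ≤ ∑ k, |ℓ (Pi.single k 1)| := by
  rw [frm_sum]
  refine (Finset.abs_sum_le_sum_abs _ _).trans (Finset.sum_le_sum fun k _ => ?_)
  rw [abs_mul]
  calc |x k| * |ℓ (Pi.single k 1)| ≤ 1 * |ℓ (Pi.single k 1)| :=
        mul_le_mul_of_nonneg_right (hx k) (abs_nonneg _)
    _ = _ := one_mul _

/-- integral parts -/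
noncomputable def flv {r : ℕ} (n : ℕ) (x : Fin r → ℝ) : Fin r → ℤ := fun k => ⌊(n : ℝ) * x k⌋

/-- the total size of the forms -/
noncomputable def BB {r b : ℕ} {d : Fin b → ℕ} (ℓ : Ix d → Frm r) : ℝ :=
  ∑ p, ∑ k, |ℓ p (Pi.single k 1)|

lemma BB_nonneg {r b : ℕ} {d : Fin b → ℕ} (ℓ : Ix d → Frm r) : 0 ≤ BB ℓ :=
  Finset.sum_nonneg fun _ _ => Finset.sum_nonneg fun _ _ => abs_nonneg _

lemma ev_flv {r b : ℕ} {d : Fin b → ℕ} (ℓ : Ix d → Frm r) (n : ℕ) (x : Fin r → ℝ) (p : Ix d) :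
    |ev (ℓ p) (flv n x) - n * ℓ p x| ≤ BB ℓ := by
  have h1 : ev (ℓ p) (flv n x) - n * ℓ p x =
      ℓ p (fun k => ((flv n x k : ℤ) : ℝ) - n * x k) := by
    unfold ev
    have : (fun k => ((flv n x k : ℤ) : ℝ) - n * x k) =
        (fun k => ((flv n x k : ℤ) : ℝ)) - (n : ℝ) • x := by
      ext k
      simp
    rw [this, map_sub, map_smul, smul_eq_mul]
  rw [h1]
  refine (frm_le _ _ fun k => ?_).trans ?_
  · unfold flv
    have h2 := Int.floor_le ((n : ℝ) * x k)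
    have h3 := Int.lt_floor_add_one ((n : ℝ) * x k)
    rw [abs_le]
    constructor <;> linarith
  · exact Finset.single_le_sum (f := fun p => ∑ k, |ℓ p (Pi.single k 1)|)
      (fun _ _ => Finset.sum_nonneg fun _ _ => abs_nonneg _) (Finset.mem_univ p)

/-- the weights as one linear map -/
noncomputable def Φ {r b : ℕ} {d : Fin b → ℕ} (ℓ : Ix d → Frm r) : (Fin r → ℝ) →ₗ[ℝ] (Ix d → ℝ) :=
  LinearMap.pi ℓ

/-- the block sums -/
def Ψ {b : ℕ} (d : Fin b → ℕ) : (Ix d → ℝ) →ₗ[ℝ] (Fin b → ℝ) :=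
  LinearMap.pi fun i => ∑ j : Fin (d i), LinearMap.proj (⟨i, j⟩ : Ix d)

lemma Ψ_apply {b : ℕ} (d : Fin b → ℕ) (τ : Ix d → ℝ) (i : Fin b) :
    Ψ d τ i = ∑ j, τ ⟨i, j⟩ := by
  simp [Ψ]

section

variable {r b : ℕ} {d : Fin b → ℕ} (hd : ∀ i, 2 ≤ d i) (hr : r + b = ∑ i, d i)
  (ℓ : Ix d → Frm r) (hsum : ∀ i, ∑ j, ℓ ⟨i, j⟩ = 0) (δ : ℝ) (hδ : 0 < δ)
  (hmax : ∀ v : Fin r → ℤ, ∃ p, δ * ∑ i, |(v i : ℝ)| ≤ ev (ℓ p) v)

include hδ hmax in
lemma Φ_inj : Function.Injective (Φ ℓ) := by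
  rw [← LinearMap.ker_eq_bot, LinearMap.ker_eq_bot']
  intro x hx
  have h0 : ∀ p, ℓ p x = 0 := fun p => congrFun hx p
  have h1 : ∀ n : ℕ, δ * (n * ∑ k, |x k| - r) ≤ BB ℓ := by
    intro n
    obtain ⟨p, hp⟩ := hmax (flv n x)
    have h2 := ev_flv ℓ n x p
    rw [h0, mul_zero, sub_zero] at h2
    have h3 : (n : ℝ) * ∑ k, |x k| - r ≤ ∑ k, |((flv n x k : ℤ) : ℝ)| := by
      have h4 : ∀ k, (n : ℝ) * |x k| - 1 ≤ |((flv n x k : ℤ) : ℝ)| := by
        intro k
        unfold flv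
        have h5 := Int.floor_le ((n : ℝ) * x k)
        have h6 := Int.lt_floor_add_one ((n : ℝ) * x k)
        have h7 : (n : ℝ) * |x k| = |(n : ℝ) * x k| := by
          rw [abs_mul, abs_of_nonneg (Nat.cast_nonneg n : (0:ℝ) ≤ (n:ℝ))]
        rw [h7]
        have h8 : |(n : ℝ) * x k| ≤ |((⌊(n : ℝ) * x k⌋ : ℤ) : ℝ)| +
            |(n : ℝ) * x k - ((⌊(n : ℝ) * x k⌋ : ℤ) : ℝ)| := by
          have := abs_add_le (((⌊(n : ℝ) * x k⌋ : ℤ) : ℝ))
            ((n : ℝ) * x k - ((⌊(n : ℝ) * x k⌋ : ℤ) : ℝ))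
          rwa [add_sub_cancel] at this
        have h9 : |(n : ℝ) * x k - ((⌊(n : ℝ) * x k⌋ : ℤ) : ℝ)| ≤ 1 := by
          rw [abs_le]
          constructor <;> linarith
        linarith
      have h10 := Finset.sum_le_sum (s := Finset.univ) fun k _ => h4 k
      rw [Finset.sum_sub_distrib, ← Finset.mul_sum] at h10
      simpa using h10
    calc δ * (n * ∑ k, |x k| - r) ≤ δ * ∑ k, |((flv n x k : ℤ) : ℝ)| :=
          mul_le_mul_of_nonneg_left h3 hδ.le
      _ ≤ ev (ℓ p) (flv n x) := hp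
      _ ≤ BB ℓ := (le_abs_self _).trans h2
  have h11 : ∑ k, |x k| = 0 := by
    by_contra hne
    have hpos : 0 < ∑ k, |x k| :=
      lt_of_le_of_ne (Finset.sum_nonneg fun _ _ => abs_nonneg _) (Ne.symm hne)
    obtain ⟨n, hn⟩ := exists_nat_gt ((BB ℓ / δ + r) / ∑ k, |x k|)
    rw [div_lt_iff₀ hpos] at hn
    have h12 : BB ℓ / δ < n * ∑ k, |x k| - r := by linarith
    rw [div_lt_iff₀ hδ] at h12
    have := h1 n
    linarith
  ext k
  have := (Finset.sum_eq_zero_iff_of_nonneg (fun _ _ => abs_nonneg _)).1 h11 k (Finset.mem_univ k)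
  exact abs_eq_zero.1 this

include hd hr hsum hδ hmax in
/-- every vector with block sums zero is a vector of weights -/
lemma Φ_surj (τ : Ix d → ℝ) (hτ : ∀ i, ∑ j, τ ⟨i, j⟩ = 0) : ∃ x, ∀ p, ℓ p x = τ p := by
  have h1 : LinearMap.range (Φ ℓ) ≤ LinearMap.ker (Ψ d) := by
    rintro _ ⟨x, rfl⟩
    rw [LinearMap.mem_ker]
    ext i
    rw [Ψ_apply]
    have := LinearMap.congr_fun (hsum i) x
    rw [LinearMap.sum_apply] at this
    exact this
  have h2 : Function.Surjective (Ψ d) := by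
    intro c
    refine ⟨fun p => c p.1 / d p.1, ?_⟩
    ext i
    rw [Ψ_apply]
    have h0 : (d i : ℝ) ≠ 0 := by
      have := hd i
      positivity
    simp only [Finset.sum_const, Finset.card_univ, Fintype.card_fin, nsmul_eq_mul]
    field_simp
  have h3 := LinearMap.finrank_range_add_finrank_ker (Ψ d)
  rw [LinearMap.range_eq_top.2 h2, finrank_top, Module.finrank_fin_fun, Module.finrank_pi,
    Fintype.card_sigma] at h3
  simp only [Fintype.card_fin] at h3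
  have h4 : Module.finrank ℝ (LinearMap.range (Φ ℓ)) = r := by
    rw [LinearMap.finrank_range_of_inj (Φ_inj ℓ δ hδ hmax), Module.finrank_fin_fun]
  have h5 : LinearMap.range (Φ ℓ) = LinearMap.ker (Ψ d) := by
    apply Submodule.eq_of_le_of_finrank_eq h1
    omega
  have h6 : τ ∈ LinearMap.range (Φ ℓ) := by
    rw [h5, LinearMap.mem_ker]
    ext i
    rw [Ψ_apply]
    exact hτ i
  obtain ⟨x, hx⟩ := h6
  exact ⟨x, fun p => congrFun hx p⟩

/-- the vector of block sums zero which is largest at `p` -/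
noncomputable def tau (d : Fin b → ℕ) (p q : Ix d) : ℝ :=
  if q.1 = p.1 then (if q = p then (d p.1 : ℝ) - 1 else -1) else 0

lemma tau_sum (p : Ix d) (i : Fin b) : ∑ j, tau d p ⟨i, j⟩ = 0 := by
  unfold tau
  by_cases hi : i = p.1
  · subst hi
    obtain ⟨i, j₀⟩ := p
    simp only [if_true]
    have h1 : ∀ j : Fin (d i), (if (⟨i, j⟩ : Ix d) = ⟨i, j₀⟩ then (d i : ℝ) - 1 else -1) =
        (if j = j₀ then (d i : ℝ) else 0) - 1 := by
      intro j
      by_cases hj : j = j₀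
      · subst hj
        simp
      · rw [if_neg hj, if_neg]
        · ring
        · intro h
          simp only [Sigma.mk.injEq, heq_eq_eq, true_and] at h
          exact hj h
    rw [Finset.sum_congr rfl fun j _ => h1 j, Finset.sum_sub_distrib]
    simp
  · simp only [if_neg hi]
    simp

lemma tau_self (p : Ix d) : tau d p p = (d p.1 : ℝ) - 1 := by
  unfold tau
  simp

lemma tau_ne (p q : Ix d) (h : q ≠ p) : tau d p q ≤ 0 := by
  unfold tau
  split_ifs <;> norm_num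

lemma tau_block (p q : Ix d) (h : q ≠ p) (h1 : q.1 = p.1) : tau d p q = -1 := by
  unfold tau
  rw [if_pos h1, if_neg h]

end

theorem num : S_NUM := by
  intro r b d hd hr ℓ hsum δ hδ hmax
  have hB := BB_nonneg ℓ
  refine ⟨⟨?_, ?_⟩, ?_⟩
  · intro p
    obtain ⟨x, hx⟩ := Φ_surj hd hr ℓ hsum δ hδ hmax (tau d p) (tau_sum p)
    obtain ⟨n, hn⟩ := exists_nat_gt (2 * BB ℓ)
    have hdp : (2 : ℝ) ≤ d p.1 := by exact_mod_cast hd p.1
    have key : ∀ q, |ev (ℓ q) (flv n x) - n * tau d p q| ≤ BB ℓ := by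
      intro q
      have := ev_flv ℓ n x q
      rwa [hx] at this
    have hp := abs_le.1 (key p)
    rw [tau_self] at hp
    have hn0 : (0 : ℝ) ≤ n := Nat.cast_nonneg n
    have h1 : (n : ℝ) ≤ n * ((d p.1 : ℝ) - 1) := by nlinarith
    refine ⟨flv n x, by linarith [hp.1], ?_, ?_⟩
    · intro q hq
      have hq' := abs_le.1 (key q)
      have h2 : (n : ℝ) * tau d p q ≤ 0 := mul_nonpos_of_nonneg_of_nonpos hn0 (tau_ne p q hq)
      linarith [hp.1, hq'.2]
    · intro q hq hq1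
      have hq' := abs_le.1 (key q)
      rw [tau_block p q hq hq1] at hq'
      linarith [hq'.2]
  · refine ⟨2 * BB ℓ, fun a => ?_⟩
    set m : Fin b → ℝ := fun i => (∑ j, a ⟨i, j⟩) / d i with hm
    have hτ : ∀ i, ∑ j, (fun p : Ix d => m p.1 - a p) ⟨i, j⟩ = 0 := by
      intro i
      have h0 : (d i : ℝ) ≠ 0 := by
        have := hd i
        positivity
      simp only [Finset.sum_sub_distrib, Finset.sum_const, Finset.card_univ, Fintype.card_fin,
        nsmul_eq_mul, hm]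
      field_simp
      ring
    obtain ⟨x, hx⟩ := Φ_surj hd hr ℓ hsum δ hδ hmax (fun p => m p.1 - a p) hτ
    refine ⟨flv 1 x, fun p q hpq => ?_⟩
    have h1 := abs_le.1 (ev_flv ℓ 1 x p)
    have h2 := abs_le.1 (ev_flv ℓ 1 x q)
    rw [hx] at h1 h2
    rw [hpq] at h1
    push_cast at h1 h2
    linarith [h1.2, h2.1]
  · classical
    set T : Finset (Frm r) := Finset.univ.image
      (fun z : {z : Ix d × Ix d // z.1 ≠ z.2} => ℓ z.1.1 - ℓ z.1.2) with hT
    have h0 : (0 : Frm r) ∉ T := by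
      intro h
      rw [hT, Finset.mem_image] at h
      obtain ⟨⟨⟨p, q⟩, hpq⟩, -, h1⟩ := h
      obtain ⟨x, hx⟩ := Φ_surj hd hr ℓ hsum δ hδ hmax (tau d p) (tau_sum p)
      have h2 := LinearMap.congr_fun h1 x
      simp only [LinearMap.sub_apply, LinearMap.zero_apply, hx] at h2
      have h3 := tau_ne p q (Ne.symm hpq)
      rw [tau_self] at h2
      have hdp : (2 : ℝ) ≤ d p.1 := by exact_mod_cast hd p.1
      linarith
    obtain ⟨v, hv⟩ := Pool.Agent.N395.CC.leafSEP r T h0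
    refine ⟨v, fun p q hpq he => ?_⟩
    refine hv (ℓ p - ℓ q) ?_ ?_
    · rw [hT, Finset.mem_image]
      exact ⟨⟨(p, q), hpq⟩, Finset.mem_univ _, rfl⟩
    · rw [LinearMap.sub_apply]
      exact sub_eq_zero.2 he

end Pool.Agent.P8H16.MB
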